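import Mathlib

/-!
# From means over dyadic intervals to weighted means over `[1, X]`
-/

set_option autoImplicit false

open MeasureTheory Set Filter

namespace Pool.Agent.Helper81.MM

/-- Integration by parts with the weight `R ^ q`. -/
theorem parts {f : ℝ → ℝ} {X q : ℝ} (hX : 1 ≤ X) (hf : IntervalIntegrable f volume 1 X) :
    ∫ R in (1 : ℝ)..X, R ^ q * f R =
      X ^ q * (∫ R in (1 : ℝ)..X, f R) -
        ∫ t in (1 : ℝ)..X, q * t ^ (q - 1) * (∫ R in (1 : ℝ)..t, f R) := by
  have h1 : AbsolutelyContinuousOnInterval (fun t : ℝ => t ^ q) 1 X := by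
    apply ContDiffOn.absolutelyContinuousOnInterval
    intro x hx
    rw [uIcc_of_le hX] at hx
    exact (Real.contDiffAt_rpow_const_of_ne (by linarith [hx.1] : x ≠ 0)).contDiffWithinAt
  have h2 := hf.absolutelyContinuousOnInterval_intervalIntegral (c := 1) left_mem_uIcc
  have h3 := h1.integral_mul_deriv_eq_deriv_mul h2
  have h4 : ∫ R in (1 : ℝ)..X, R ^ q * deriv (fun x => ∫ v in (1 : ℝ)..x, f v) R =
      ∫ R in (1 : ℝ)..X, R ^ q * f R := by
    apply intervalIntegral.integral_congr_ae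
    filter_upwards [hf.ae_hasDerivAt_integral] with x hx hx'
    rw [(hx (uIoc_subset_uIcc hx') 1 left_mem_uIcc).deriv]
  have h5 : ∫ t in (1 : ℝ)..X, deriv (fun t : ℝ => t ^ q) t * (∫ R in (1 : ℝ)..t, f R) =
      ∫ t in (1 : ℝ)..X, q * t ^ (q - 1) * (∫ R in (1 : ℝ)..t, f R) := by
    apply intervalIntegral.integral_congr
    intro t ht
    rw [uIcc_of_le hX] at ht
    have : t ≠ 0 := by linarith [ht.1]
    simp only [(Real.hasDerivAt_rpow_const (p := q) (Or.inl this)).deriv]
  rw [h4, h5] at h3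
  rw [h3]
  simp

variable {I : Type*} {F : I → ℝ → ℝ}

theorem ii (hi : ∀ a X, IntegrableOn (F a) (Icc 1 X)) (a : I) {x y : ℝ} (hx : 1 ≤ x)
    (hxy : x ≤ y) : IntervalIntegrable (F a) volume x y := by
  rw [intervalIntegrable_iff_integrableOn_Icc_of_le hxy]
  exact (hi a y).mono_set (Icc_subset_Icc_left hx)

/-- The primitive differs from the linear function by at most `B + d t`, uniformly. -/
theorem lin_bound (h0 : ∀ a R, 0 ≤ F a R) (hi : ∀ a X, IntegrableOn (F a) (Icc 1 X)) {m : ℝ}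
    (hm : ∀ d, 0 < d → ∃ X0, 1 ≤ X0 ∧ ∀ X, X0 ≤ X → ∀ a,
      |X⁻¹ * (∫ R in Icc X (2 * X), F a R) - m| ≤ d)
    (hb : ∀ Y : ℝ, ∃ B : ℝ, ∀ a, ∫ R in Icc 1 Y, F a R ≤ B) {d : ℝ} (hd : 0 < d) :
    ∃ B, 0 ≤ B ∧ ∀ a, ∀ t, 1 ≤ t → |(∫ R in (1 : ℝ)..t, F a R) - m * t| ≤ B + d * t := by
  obtain ⟨X0, hX0, hm⟩ := hm d hd
  obtain ⟨B0, hB0⟩ := hb (2 * X0)
  have hbase : ∀ a, ∀ t, 1 ≤ t → t ≤ 2 * X0 →
      |(∫ R in (1 : ℝ)..t, F a R) - m * t| ≤ (|B0| + |m| * (2 * X0)) + d * t := by
    intro a t ht ht2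
    have h1 : (∫ R in (1 : ℝ)..t, F a R) ≤ |B0| := by
      rw [intervalIntegral.integral_of_le ht, ← integral_Icc_eq_integral_Ioc]
      refine (setIntegral_mono_set (hi a (2 * X0)) (ae_of_all _ fun x => h0 a x)
        (Icc_subset_Icc_right ht2).eventuallyLE).trans ((hB0 a).trans (le_abs_self _))
    have h2 : 0 ≤ ∫ R in (1 : ℝ)..t, F a R :=
      intervalIntegral.integral_nonneg ht fun x _ => h0 a x
    have h3 : |m * t| ≤ |m| * (2 * X0) := by
      rw [abs_mul, abs_of_nonneg (by linarith : (0 : ℝ) ≤ t)]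
      exact mul_le_mul_of_nonneg_left ht2 (abs_nonneg _)
    have h4 : 0 ≤ d * t := mul_nonneg hd.le (by linarith)
    calc |(∫ R in (1 : ℝ)..t, F a R) - m * t|
        ≤ |∫ R in (1 : ℝ)..t, F a R| + |m * t| := abs_sub _ _
      _ ≤ (|B0| + |m| * (2 * X0)) + d * t := by
          rw [abs_of_nonneg h2]
          linarith
  have hind : ∀ n : ℕ, ∀ a, ∀ t, 1 ≤ t → t ≤ 2 ^ (n + 1) * X0 →
      |(∫ R in (1 : ℝ)..t, F a R) - m * t| ≤ (|B0| + |m| * (2 * X0)) + d * t := by
    intro n
    induction n with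
    | zero => intro a t h1 h2; exact hbase a t h1 (by simpa using h2)
    | succ n ih =>
      intro a t h1 h2
      rcases le_or_gt t (2 * X0) with h3 | h3
      · exact hbase a t h1 h3
      have h4 : X0 ≤ t / 2 := by linarith
      have h5 : t / 2 ≤ 2 ^ (n + 1) * X0 := by
        have : (2 : ℝ) ^ (n + 1 + 1) * X0 = 2 * (2 ^ (n + 1) * X0) := by ring
        linarith
      have h6 := ih a (t / 2) (by linarith) h5
      have h7 := hm (t / 2) h4 a
      have h8 : (2 : ℝ) * (t / 2) = t := by ring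
      rw [h8, integral_Icc_eq_integral_Ioc, ← intervalIntegral.integral_of_le (by linarith)] at h7
      have h9 : (∫ R in (1 : ℝ)..(t / 2), F a R) + (∫ R in (t / 2)..t, F a R) =
          ∫ R in (1 : ℝ)..t, F a R :=
        intervalIntegral.integral_add_adjacent_intervals (ii hi a le_rfl (by linarith))
          (ii hi a (by linarith) (by linarith))
      have hp : 0 < t / 2 := by linarith
      have h10 : |(∫ R in (t / 2)..t, F a R) - m * (t / 2)| ≤ d * (t / 2) := by
        have : (∫ R in (t / 2)..t, F a R) - m * (t / 2) =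
            (t / 2) * ((t / 2)⁻¹ * (∫ R in (t / 2)..t, F a R) - m) := by
          field_simp
        rw [this, abs_mul, abs_of_pos hp, mul_comm d]
        exact mul_le_mul_of_nonneg_left h7 hp.le
      calc |(∫ R in (1 : ℝ)..t, F a R) - m * t|
          = |((∫ R in (1 : ℝ)..(t / 2), F a R) - m * (t / 2)) +
              ((∫ R in (t / 2)..t, F a R) - m * (t / 2))| := by
            rw [← h9]
            congr 1
            ring
        _ ≤ _ := abs_add_le _ _
        _ ≤ ((|B0| + |m| * (2 * X0)) + d * (t / 2)) + d * (t / 2) := add_le_add h6 h10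
        _ = (|B0| + |m| * (2 * X0)) + d * t := by ring
  refine ⟨|B0| + |m| * (2 * X0), by positivity, fun a t ht => ?_⟩
  obtain ⟨n, hn⟩ := pow_unbounded_of_one_lt t (by norm_num : (1 : ℝ) < 2)
  refine hind n a t ht ?_
  have h1 : (2 : ℝ) ^ n ≤ 2 ^ (n + 1) := pow_le_pow_right₀ (by norm_num) (by omega)
  have h2 : (2 : ℝ) ^ (n + 1) * 1 ≤ 2 ^ (n + 1) * X0 :=
    mul_le_mul_of_nonneg_left hX0 (by positivity)
  linarith

/-- The mean value of `F` over dyadic intervals gives the asymptotic formula for the weighted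
integral over `[1, X]`, uniformly in the parameter. -/
theorem abel_mean (h0 : ∀ a R, 0 ≤ F a R) (hi : ∀ a X, IntegrableOn (F a) (Icc 1 X)) {m : ℝ}
    (hm : ∀ d, 0 < d → ∃ X0, 1 ≤ X0 ∧ ∀ X, X0 ≤ X → ∀ a,
      |X⁻¹ * (∫ R in Icc X (2 * X), F a R) - m| ≤ d)
    (hb : ∀ Y : ℝ, ∃ B : ℝ, ∀ a, ∫ R in Icc 1 Y, F a R ≤ B) {q : ℝ} (hq : 0 ≤ q) :
    ∀ d, 0 < d → ∃ X0, 1 ≤ X0 ∧ ∀ X, X0 ≤ X → ∀ a,
      |(∫ R in Icc 1 X, R ^ q * F a R) / X ^ (1 + q) - m / (1 + q)| ≤ d := by
  intro d hd
  obtain ⟨B, hB, hlin⟩ := lin_bound h0 hi hm hb (d := d / 4) (by positivity)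
  refine ⟨max 1 ((2 * B + |m|) * (2 / d)), le_max_left _ _, fun X hX a => ?_⟩
  have hX1 : 1 ≤ X := (le_max_left _ _).trans hX
  have hX2 : (2 * B + |m|) * (2 / d) ≤ X := (le_max_right _ _).trans hX
  have hX0 : 0 < X := by linarith
  have hq1 : 0 < 1 + q := by linarith
  set G : ℝ → ℝ := fun t => ∫ R in (1 : ℝ)..t, F a R with hG
  have hFi := ii hi a le_rfl hX1
  have hGc : ContinuousOn G (uIcc 1 X) :=
    (hFi.absolutelyContinuousOnInterval_intervalIntegral (c := 1) left_mem_uIcc).continuousOn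
  have hrp : ∀ e : ℝ, ContinuousOn (fun t : ℝ => t ^ e) (uIcc 1 X) := by
    intro e t ht
    rw [uIcc_of_le hX1] at ht
    exact (Real.continuousAt_rpow_const _ _ (Or.inl (by linarith [ht.1]))).continuousWithinAt
  have hp := parts (q := q) hX1 hFi
  rw [integral_Icc_eq_integral_Ioc, ← intervalIntegral.integral_of_le hX1, hp]
  -- the main term
  have hmain : ∫ t in (1 : ℝ)..X, q * t ^ (q - 1) * (m * t) =
      m * q / (1 + q) * (X ^ (1 + q) - 1) := by
    have h1 : ∫ t in (1 : ℝ)..X, q * t ^ (q - 1) * (m * t) =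
        ∫ t in (1 : ℝ)..X, (m * q) * t ^ q := by
      apply intervalIntegral.integral_congr
      intro t ht
      rw [uIcc_of_le hX1] at ht
      have ht0 : 0 < t := by linarith [ht.1]
      have : t ^ q = t ^ (q - 1) * t := by
        rw [← Real.rpow_add_one ht0.ne']
        congr 1
        ring
      simp only [this]
      ring
    rw [h1, intervalIntegral.integral_const_mul, integral_rpow (Or.inl (by linarith))]
    rw [Real.one_rpow, add_comm q 1]
    ring
  have hD : |∫ t in (1 : ℝ)..X, q * t ^ (q - 1) * (G t - m * t)| ≤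
      X ^ q * (B + d / 4 * X) := by
    have h1 : |∫ t in (1 : ℝ)..X, q * t ^ (q - 1) * (G t - m * t)| ≤
        ∫ t in (1 : ℝ)..X, (q * t ^ (q - 1)) * (B + d / 4 * X) := by
      refine (intervalIntegral.abs_integral_le_integral_abs hX1).trans ?_
      refine intervalIntegral.integral_mono_on hX1 ?_ ?_ ?_
      · apply ContinuousOn.intervalIntegrable
        exact ((continuousOn_const.mul (hrp _)).mul
          (hGc.sub (continuousOn_const.mul continuousOn_id))).abs
      · apply ContinuousOn.intervalIntegrable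
        exact (continuousOn_const.mul (hrp _)).mul continuousOn_const
      · intro t ht
        have ht0 : 0 < t := by linarith [ht.1]
        rw [abs_mul, abs_of_nonneg (mul_nonneg hq (Real.rpow_nonneg ht0.le _))]
        refine mul_le_mul_of_nonneg_left ?_ (mul_nonneg hq (Real.rpow_nonneg ht0.le _))
        have := hlin a t ht.1
        have h2 : d / 4 * t ≤ d / 4 * X := mul_le_mul_of_nonneg_left ht.2 (by positivity)
        linarith
    have h2 : ∫ t in (1 : ℝ)..X, (q * t ^ (q - 1)) * (B + d / 4 * X) =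
        (X ^ q - 1) * (B + d / 4 * X) := by
      rw [intervalIntegral.integral_mul_const]
      congr 1
      have h3 : ∀ t ∈ uIcc (1 : ℝ) X, HasDerivAt (fun t : ℝ => t ^ q) (q * t ^ (q - 1)) t := by
        intro t ht
        rw [uIcc_of_le hX1] at ht
        exact Real.hasDerivAt_rpow_const (Or.inl (by linarith [ht.1]))
      rw [intervalIntegral.integral_eq_sub_of_hasDerivAt h3
        ((continuousOn_const.mul (hrp _)).intervalIntegrable), Real.one_rpow]
    rw [h2] at h1
    refine h1.trans (mul_le_mul_of_nonneg_right (by linarith) ?_)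
    positivity
  have hsplit : ∫ t in (1 : ℝ)..X, q * t ^ (q - 1) * G t =
      m * q / (1 + q) * (X ^ (1 + q) - 1) +
        ∫ t in (1 : ℝ)..X, q * t ^ (q - 1) * (G t - m * t) := by
    rw [← hmain, ← intervalIntegral.integral_add]
    · apply intervalIntegral.integral_congr
      intro t _
      simp only
      ring
    · apply ContinuousOn.intervalIntegrable
      exact (continuousOn_const.mul (hrp _)).mul (continuousOn_const.mul continuousOn_id)
    · apply ContinuousOn.intervalIntegrable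
      exact (continuousOn_const.mul (hrp _)).mul
        (hGc.sub (continuousOn_const.mul continuousOn_id))
  have hGX := hlin a X hX1
  have hXq : X ^ (1 + q) = X ^ q * X := by
    rw [add_comm, Real.rpow_add_one hX0.ne']
  have hXq0 : 0 < X ^ q := Real.rpow_pos_of_pos hX0 _
  have hXq1 : 1 ≤ X ^ q := Real.one_le_rpow hX1 hq
  change |(X ^ q * G X - ∫ t in (1 : ℝ)..X, q * t ^ (q - 1) * G t) / X ^ (1 + q) -
    m / (1 + q)| ≤ d
  rw [hsplit]
  set J := ∫ t in (1 : ℝ)..X, q * t ^ (q - 1) * (G t - m * t) with hJ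
  have hP : 0 < X ^ (1 + q) := Real.rpow_pos_of_pos hX0 _
  have hrew : (X ^ q * G X - (m * q / (1 + q) * (X ^ (1 + q) - 1) + J)) / X ^ (1 + q) -
      m / (1 + q) = (X ^ q * (G X - m * X) + m * q / (1 + q) - J) / X ^ (1 + q) := by
    rw [div_sub' hP.ne', div_left_inj' hP.ne']
    rw [hXq]
    field_simp
    ring
  rw [hrew, abs_div, abs_of_pos hP, div_le_iff₀ hP]
  have h1 : |X ^ q * (G X - m * X)| ≤ X ^ q * (B + d / 4 * X) := by
    rw [abs_mul, abs_of_pos hXq0]
    exact mul_le_mul_of_nonneg_left hGX hXq0.le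
  have h2 : |m * q / (1 + q)| ≤ X ^ q * |m| := by
    rw [abs_div, abs_mul, abs_of_nonneg hq, abs_of_pos hq1, div_le_iff₀ hq1]
    have : |m| * q ≤ |m| * (1 + q) := mul_le_mul_of_nonneg_left (by linarith) (abs_nonneg _)
    have h3 : 1 * (|m| * (1 + q)) ≤ X ^ q * (|m| * (1 + q)) :=
      mul_le_mul_of_nonneg_right hXq1 (by positivity)
    nlinarith
  have h3 : (2 * B + |m|) ≤ d / 2 * X := by
    have : (2 * B + |m|) * (2 / d) * (d / 2) ≤ X * (d / 2) :=
      mul_le_mul_of_nonneg_right hX2 (by positivity)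
    have h4 : (2 * B + |m|) * (2 / d) * (d / 2) = 2 * B + |m| := by
      field_simp
    linarith
  calc |X ^ q * (G X - m * X) + m * q / (1 + q) - J|
      ≤ |X ^ q * (G X - m * X)| + |m * q / (1 + q)| + |J| := by
        refine (abs_sub _ _).trans (add_le_add_left (abs_add_le _ _) _)
    _ ≤ X ^ q * (B + d / 4 * X) + X ^ q * |m| + X ^ q * (B + d / 4 * X) := by
        linarith [h1, h2, hD]
    _ = X ^ q * (2 * B + |m| + d / 2 * X) := by ring
    _ ≤ X ^ q * (d * X) := mul_le_mul_of_nonneg_left (by linarith) hXq0.le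
    _ = d * X ^ (1 + q) := by rw [hXq]; ring

end Pool.Agent.Helper81.MM
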